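import Pool.Agent.Y1.CT.Kun
import Pool.Agent.K6.H99.AC.Main

/-!
# The cohomology of the product of an abelian variety and an unrelated variety: a basis of eigenvectors
-/

set_option autoImplicit false
set_option linter.unusedSectionVars false

open CategoryTheory AlgebraicGeometry

universe u v w

namespace Pool.Agent.K6.H79.FC

open Module Polynomial Pool.Agent.H914 Pool.Agent.H914.VarClass Pool.Agent.H914.VarClass.Obj
  Pool.Agent.W492.BB Pool.Agent.W550.Corr Pool.Agent.W484.TB Pool.Agent.W484.CH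
  Pool.Agent.W484.HS Pool.Agent.K6.H99.AC Pool.Agent.Y1.CT

variable {k : Type u} [Field k] {𝒱 : VarClass k} {C : TheoryData.{u, v, 0} 𝒱 ℚ} {K : Type w}
  [Field K] [CharZero K] {H : WeilTheoryData.{u, v, w} C K} [hC : IsChow C]
  [hH : IsWeil H] {A Y X Z : 𝒱.Obj}

variable (H) in
/-- The eigenvectors `y` of `π` whose eigenvalue `ρ` is a root of a rational polynomial all of whose
complex roots have the property `R`, and which are generated by products of divisors if `ρ` is a power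
of `Q`. -/
def GoodVectors (R : ℂ → Prop) (Q : ℕ) {Z : 𝒱.Obj} (π : Z ⟶ Z) : Set (H.A Z) :=
  {y | ∃ (ρ : K) (χ : ℚ[X]), χ ≠ 0 ∧ (∀ ρ : ℂ, aeval ρ χ = 0 → R ρ) ∧ aeval ρ χ = 0 ∧
    H.pull π y = ρ • y ∧ ∀ c : ℤ, ρ = (Q : K) ^ c → ∃ l : ℕ, ρ = (Q : K) ^ l ∧ y ∈ NK H Z l}

/-- A basis of eigenvectors of Frobenius in the cohomology of `A × Z`, such that those with
eigenvalue a power of `Q = q ^ s` are combinations of classes of products of divisors. -/
theorem exists_basis_times {I : Type} {f : I → ℤ[X]} {q : ℕ} (hq1 : 1 < q) {R : ℂ → Prop}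
    (hR : NoRel f q R) (hS : IsStandard H) {s : ℕ} (hs : 0 < s) {πA : A ⟶ A} {πZ : Z ⟶ Z}
    (hA : IsAbelian H πA q s f)
    (hZ : ∀ y : H.A Z, y ∈ Submodule.span K (GoodVectors H R (q ^ s) πZ)) :
    ∃ (r : ℕ) (b : Basis (Fin r) K (H.A (A.prod Z))) (β : Fin r → K),
      (∀ t, H.pull (prodMap πA πZ) (b t) = β t • b t) ∧ (∀ t, IsIntegral ℚ (β t)) ∧
      ∀ t (c : ℤ), β t = ((q ^ s : ℕ) : K) ^ c →
        ∃ l : ℕ, β t = ((q ^ s : ℕ) : K) ^ l ∧ b t ∈ NK H (A.prod Z) l := by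
  classical
  have hfin := hS.finite A
  have hfinX := hS.finite (A.prod Z)
  obtain ⟨n, b, α, hb, hα, hgood⟩ := exists_good_basis hq1 hR hS hs hA
  set Q : ℕ := q ^ s with hQdef
  have hQ0 : (Q : K) ≠ 0 := by
    have h1 : Q ≠ 0 := pow_ne_zero _ (by omega)
    exact_mod_cast h1
  -- the spanning set
  set Sp : Set (H.A (A.prod Z)) := {v | ∃ β : K, H.pull (prodMap πA πZ) v = β • v ∧
    IsIntegral ℚ β ∧ ∀ c : ℤ, β = (Q : K) ^ c → ∃ l : ℕ, β = (Q : K) ^ l ∧
      v ∈ NK H (A.prod Z) l} with hSp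
  have hext : ∀ t (y : H.A Z), H.ext (b t) y ∈ Submodule.span K Sp := by
    intro t y
    have hy := hZ y
    induction hy using Submodule.span_induction with
    | mem y hy =>
      obtain ⟨ρ, χ, hχ, hχR, hρ, hyρ, hy⟩ := hy
      refine Submodule.subset_span ⟨α t * ρ, ?_, ?_, fun c hc => ?_⟩
      · rw [pull_prodMap_ext, hb, hyρ, ext_smul_left, ext_smul_right, ext_smul_right, smul_smul]
      · exact (hα t).mul ((isAlgebraic_iff_isIntegral).1 ⟨χ, hχ, hρ⟩)
      · obtain ⟨l, h1, h2⟩ := hgood χ hχ hχR ρ hρ t c hc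
        have h3 : ρ = (Q : K) ^ (c - l) := by
          rw [h1] at hc
          rw [zpow_sub₀ hQ0, ← hc, zpow_natCast, mul_div_cancel_left₀ _ (pow_ne_zero _ hQ0)]
        obtain ⟨l', h4, h5⟩ := hy _ h3
        refine ⟨l + l', by rw [h1, h4, pow_add], ?_⟩
        rw [TheoryData.ext]
        exact mul_mem_NK (NK_pull _ h2) (NK_pull _ h5)
    | zero =>
      have : H.ext (b t) (0 : H.A Z) = 0 := by rw [TheoryData.ext, map_zero, mul_zero]
      rw [this]
      exact Submodule.zero_mem _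
    | add x y _ _ hx hy => rw [ext_add_right]; exact Submodule.add_mem _ hx hy
    | smul a x _ hx => rw [ext_smul_right]; exact Submodule.smul_mem _ _ hx
  have hspan : Submodule.span K Sp = ⊤ := by
    rw [eq_top_iff]
    intro w _
    obtain ⟨h, rfl⟩ := kunneth_exists b w
    exact Submodule.sum_mem _ fun t _ => hext t _
  -- the basis
  obtain ⟨S, hS1, hS2, hS3⟩ := exists_linearIndependent K Sp
  have hft := hS3.setFinite.fintype
  let b' : Basis S K (H.A (A.prod Z)) := Basis.mk hS3 (by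
    rw [Subtype.range_coe, hS2, hspan])
  let e := Fintype.equivFin S
  let b'' := b'.reindex e
  have hb'' : ∀ t, b'' t ∈ Sp := by
    intro t
    have h1 : b'' t = (e.symm t : H.A (A.prod Z)) := by
      rw [Basis.reindex_apply, Basis.mk_apply]
    rw [h1]
    exact hS1 (e.symm t).2
  choose β hβ1 hβ2 hβ3 using hb''
  exact ⟨_, b'', β, hβ1, hβ2, hβ3⟩

/-- **Varieties of dimension at most three.** The eigenvectors of Frobenius are good if the theorem of
Tate for divisors and the hard Lefschetz theorem hold. -/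
theorem good_of_threefold {R : ℂ → Prop} {Q : ℕ} (hQ : 1 < Q) (hS : IsStandard H) {π : Z ⟶ Z}
    (hπ : IsFrobenius C π Q) (hdim : Z.dim ≤ 3) {χ : ℕ → ℤ[X]} (hχ : ∀ j, (χ j).Monic)
    (hχn : ∀ j, ∀ ρ : ℂ, aeval ρ (χ j) = 0 → ‖ρ‖ ^ 2 = (Q : ℝ) ^ j)
    (hχR : ∀ j, ∀ ρ : ℂ, aeval ρ (χ j) = 0 → R ρ)
    (hspan : ∀ (j : ℕ), ∀ y ∈ H.gr Z j, y ∈ Submodule.span K {y | y ∈ H.gr Z j ∧
      ∃ ρ : K, aeval ρ (χ j) = 0 ∧ H.pull π y = ρ • y})
    (htate : ∀ y ∈ H.gr Z 2, H.pull π y = (Q : K) • y → y ∈ NK H Z 1)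
    (h : C.A Z) (hh : h ∈ C.gr Z 1)
    (hinj : ∀ m : ℕ, m ≤ 1 → 2 * m < Z.dim → ∀ a ∈ H.gr Z (2 * m : ℕ),
      H.cl (h ^ (Z.dim - 2 * m)) * a = 0 → a = 0)
    (hsurj : ∀ m : ℕ, m ≤ 1 → 2 * m < Z.dim → ∀ b ∈ H.gr Z (2 * (Z.dim - m : ℕ) : ℕ),
      ∃ a ∈ H.gr Z (2 * m : ℕ), b = H.cl (h ^ (Z.dim - 2 * m)) * a) (y : H.A Z) :
    y ∈ Submodule.span K (GoodVectors H R Q π) := by
  have hQ0 : (Q : K) ≠ 0 := by
    have h1 : Q ≠ 0 := by omega
    exact_mod_cast h1
  have hzero : ∀ a ∈ H.gr Z 0, a ∈ NK H Z 0 := by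
    intro a ha
    obtain ⟨c, rfl⟩ := hS.coh_zero Z a ha
    exact Submodule.smul_mem _ _ one_mem_NK
  have hhN : ∀ e : ℕ, H.cl (h ^ e) ∈ NK H Z e := by
    intro e
    refine Submodule.subset_span ⟨h ^ e, ⟨List.replicate e h, List.length_replicate, ?_, ?_⟩, rfl⟩
    · intro x hx
      rw [List.eq_of_mem_replicate hx]
      exact hh
    · rw [List.prod_replicate]
  have key : ∀ j : ℕ, ∀ y ∈ H.gr Z j, ∀ ρ : K, aeval ρ (χ j) = 0 → H.pull π y = ρ • y →
      y ∈ GoodVectors H R Q π := by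
    intro j y hy ρ hρ hyρ
    refine ⟨ρ, (χ j).map (algebraMap ℤ ℚ), ((hχ j).map _).ne_zero, fun ρ' hρ' => ?_, ?_, hyρ, ?_⟩
    · rw [aeval_map_algebraMap] at hρ'
      exact hχR j ρ' hρ'
    · rw [aeval_map_algebraMap]
      exact hρ
    intro c hc
    -- the weight
    have hj : (j : ℤ) = 2 * c := by
      have h1 : aeval ((Q : ℚ) ^ c) (χ j) = 0 := by
        apply (algebraMap ℚ K).injective
        rw [← aeval_algebraMap_apply, map_zero, map_zpow₀, map_natCast, ← hc]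
        exact hρ
      have h2 : aeval ((Q : ℂ) ^ c) (χ j) = 0 := by
        have h3 := aeval_algebraMap_apply ℂ ((Q : ℚ) ^ c) (χ j)
        rw [h1, map_zero, map_zpow₀, map_natCast] at h3
        exact h3
      have h3 := hχn j _ h2
      rw [norm_zpow, Complex.norm_natCast] at h3
      have h4 : ((Q : ℝ) ^ c) ^ 2 = (Q : ℝ) ^ (2 * c) := by
        rw [← zpow_natCast, ← zpow_mul, mul_comm]
        norm_num
      rw [h4, ← zpow_natCast] at h3
      have hQ1 : (1 : ℝ) < (Q : ℝ) := by exact_mod_cast hQ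
      have h5 := zpow_right_injective₀ (by positivity) hQ1.ne' h3
      exact h5.symm
    obtain ⟨l, rfl⟩ : ∃ l : ℕ, c = l := ⟨c.toNat, by omega⟩
    obtain rfl : j = 2 * l := by omega
    refine ⟨l, by rw [hc, zpow_natCast], ?_⟩
    rw [hc, zpow_natCast] at hyρ
    rcases Nat.lt_or_ge l 2 with hl | hl
    · interval_cases l
      · exact hzero y hy
      · exact htate y (by exact_mod_cast hy) (by rw [hyρ, pow_one])
    rcases Nat.lt_or_ge Z.dim l with hld | hld
    · rw [hS.coh_top Z _ (by push_cast; omega), Submodule.mem_bot] at hy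
      rw [hy]
      exact Submodule.zero_mem _
    -- the Lefschetz theorem
    obtain ⟨m, hm⟩ : ∃ m : ℕ, Z.dim = l + m := ⟨Z.dim - l, by omega⟩
    have hm1 : m ≤ 1 := by omega
    have h2m : 2 * m < Z.dim := by omega
    obtain ⟨a, ha, hya⟩ := hsurj m hm1 h2m y (by
      have : 2 * (Z.dim - m) = 2 * l := by omega
      rw [this]
      exact hy)
    have hpow : H.pull π (H.cl (h ^ (Z.dim - 2 * m))) =
        (Q : K) ^ (Z.dim - 2 * m) • H.cl (h ^ (Z.dim - 2 * m)) := NK_eigen hπ (hhN _)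
    have haQ : H.pull π a = (Q : K) ^ m • a := by
      have h1 : H.cl (h ^ (Z.dim - 2 * m)) * (H.pull π a - (Q : K) ^ m • a) = 0 := by
        have h2 : (Q : K) ^ (Z.dim - 2 * m) • (H.cl (h ^ (Z.dim - 2 * m)) * H.pull π a) =
            (Q : K) ^ l • (H.cl (h ^ (Z.dim - 2 * m)) * a) := by
          rw [← smul_mul_assoc, ← hpow, ← map_mul, ← hya, hyρ]
        have h3 : (Q : K) ^ l = (Q : K) ^ (Z.dim - 2 * m) * (Q : K) ^ m := by
          rw [← pow_add]
          congr 1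
          omega
        rw [h3, mul_smul] at h2
        have h4 := smul_right_injective _ (pow_ne_zero (Z.dim - 2 * m) hQ0) h2
        rw [mul_sub, h4, mul_smul_comm, sub_self]
      have h2 := hinj m hm1 h2m _ (Submodule.sub_mem _ (H.pull_mem _ ha)
        (Submodule.smul_mem _ _ ha)) h1
      exact sub_eq_zero.1 h2
    have haN : a ∈ NK H Z m := by
      interval_cases m
      · exact hzero a (by exact_mod_cast ha)
      · exact htate a (by exact_mod_cast ha) (by rw [haQ, pow_one])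
    have h1 := mul_mem_NK (hhN (Z.dim - 2 * m)) haN
    rw [← hya, show Z.dim - 2 * m + m = l by omega] at h1
    exact h1
  refine homog_induction H.toTheoryData
    (p := fun y => y ∈ Submodule.span K (GoodVectors H R Q π)) ?_ ?_ y
  · intro i a ha
    rcases lt_or_ge i 0 with hi | hi
    · rw [H.gr_neg _ _ hi, Submodule.mem_bot] at ha
      rw [ha]
      exact Submodule.zero_mem _
    · obtain ⟨j, rfl⟩ := Int.eq_ofNat_of_zero_le hi
      refine Submodule.span_mono ?_ (hspan j a ha)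
      rintro y ⟨hy, ρ, hρ, hyρ⟩
      exact key j y hy ρ hρ hyρ
  · intro a a' h1 h2
    exact Submodule.add_mem _ h1 h2

end Pool.Agent.K6.H79.FC
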