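import Mathlib
import Pool.Agent.K6.H18.Arith.Defs

/-!
# Finite covers and finite generation of the groups `H^i(X_ét, ℤ^c(n))`: definitions
-/

set_option autoImplicit false

namespace Pool.Agent.K6.H79.FC

open AlgebraicGeometry CategoryTheory Pool.Agent.K6.H18.Arith

section groups

variable {G : Type} [Group G]

/-- `f : Y ⟶ Z` is the quotient of the scheme `Y` by the action of the subgroup `K` of `G` (which need not be
free), up to a universal homeomorphism: `f` is finite, surjective and `K`-invariant, and `K` acts
transitively on its geometric fibres. -/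
structure IsQuotient {Y Z : Scheme.{0}} (φ : G →* Aut Y) (K : Subgroup G) (f : Y ⟶ Z) : Prop where
  arithmetic : IsArithmetic Z
  finite : IsFinite f
  surjective : Surjective f
  invariant : ∀ k ∈ K, (φ k).hom ≫ f = f
  transitive : ∀ (Ω : Type) [Field Ω] [IsAlgClosed Ω] (x y : Spec (CommRingCat.of Ω) ⟶ Y),
    x ≫ f = y ≫ f → ∃ k ∈ K, x ≫ (φ k).hom = y

/-- The representation `ρ` contains a nonzero vector which is fixed by the subgroup `K`. -/
def HasFixed {V : Type} [AddCommGroup V] [Module ℚ V] (ρ : Representation ℚ G V)
    (K : Subgroup G) : Prop :=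
  ∃ v : V, v ≠ 0 ∧ ∀ k ∈ K, ρ k v = v

/-- Every irreducible representation of `G` over the rational numbers which contains a nonzero
vector fixed by `J` contains a nonzero vector which is fixed by some subgroup in the set `𝒦`. -/
def FixedBelow (J : Subgroup G) (𝒦 : Set (Subgroup G)) : Prop :=
  ∀ (V : Type) [AddCommGroup V] [Module ℚ V] (ρ : Representation ℚ G V), ρ.IsIrreducible →
    HasFixed ρ J → ∃ K ∈ 𝒦, HasFixed ρ K

end groups

variable (H : Scheme.{0} → ℤ → ℤ → Type) [∀ X n i, AddCommGroup (H X n i)]

/-- `f` is a finite surjective morphism which is flat, onto a connected scheme, or which is a morphism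
onto a normal integral scheme. -/
structure IsCover {X Y : Scheme.{0}} (f : Y ⟶ X) : Prop where
  finite : IsFinite f
  surjective : Surjective f
  flat_or_normal : (ConnectedSpace X ∧ Flat f) ∨
    (IsIntegral X ∧ ∀ x : X, IsIntegrallyClosed (X.presheaf.stalk x))

/-- The properties of the groups `H X n i = H^i(X_ét, ℤ^c(n))`, `n < 0`, for finite morphisms.

* The groups of the empty scheme are zero.
* The `m`-torsion subgroups are finite.
* A cover `f` of an arithmetic scheme, flat or with a normal integral base, has a transfer: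
  push-forward after pull-back is the multiplication by some `d > 0` (the degree in the flat case).
* If the finite group `G` acts on `Y`, then it acts on the groups of `Y`. If `f : Y ⟶ Z` is the quotient
  by a subgroup `K`, then, for some `M > 0`, pull-back after push-forward is `M` times the norm, the sum
  of the operators of the elements of `K`, and push-forward after pull-back is `M` times the order of
  `K`: push-forward is an isomorphism of the `K`-invariants of the cycle complex of `Y` with the cycle
  complex of `Z`, rationally, with bounded denominators. -/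
structure HasTransfers : Prop where
  empty : ∀ X : Scheme.{0}, IsEmpty X → ∀ n i : ℤ, Subsingleton (H X n i)
  torsion : ∀ X : Scheme.{0}, IsArithmetic X → ∀ n : ℤ, n < 0 → ∀ (i : ℤ) (m : ℕ), 0 < m →
    {x : H X n i | m • x = 0}.Finite
  transfer : ∀ {X Y : Scheme.{0}} (f : Y ⟶ X), IsCover f → IsArithmetic X →
    ∀ n : ℤ, n < 0 → ∀ i : ℤ, ∃ d : ℕ, 0 < d ∧
      ∃ (pull : H X n i →+ H Y n i) (push : H Y n i →+ H X n i), ∀ x, push (pull x) = d • x
  galois : ∀ (Y : Scheme.{0}) (G : Type) [Group G] [Finite G] (φ : G →* Aut Y), IsArithmetic Y →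
    ∀ n : ℤ, n < 0 → ∀ i : ℤ, ∃ act : G →* AddMonoid.End (H Y n i),
      ∀ (K : Subgroup G) (Z : Scheme.{0}) (f : Y ⟶ Z), IsQuotient φ K f → ∃ M : ℕ, 0 < M ∧
        ∃ (pull : H Z n i →+ H Y n i) (push : H Y n i →+ H Z n i),
          (∀ y, pull (push y) = M • ∑ᶠ k : K, act k y) ∧
            ∀ z, push (pull z) = (M * Nat.card K) • z

/-- The quotients `Z` of `Y` by the subgroups in `𝒦` exist, and the groups
`H^i(Z_ét, ℤ^c(n))` are finitely generated. -/
def QuotientsFG {G : Type} [Group G] {Y : Scheme.{0}} (φ : G →* Aut Y) (𝒦 : Set (Subgroup G))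
    (n i : ℤ) : Prop :=
  ∀ K ∈ 𝒦, ∃ (Z : Scheme.{0}) (f : Y ⟶ Z), IsQuotient φ K f ∧ AddGroup.FG (H Z n i)

/-- The groups of weight `n` and degree `i` are *potentially finitely generated*: every integral
arithmetic scheme has a nonempty open subscheme `U` and a finite flat cover `V ⟶ U` for which
`H^i(V_ét, ℤ^c(n))` is finitely generated. -/
def Potential (n i : ℤ) : Prop :=
  ∀ X : Scheme.{0}, IsArithmetic X → IsIntegral X → ∃ (U : X.Opens) (V : Scheme.{0})
    (f : V ⟶ U.toScheme), (U : Set X).Nonempty ∧ IsFinite f ∧ Flat f ∧ Surjective f ∧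
      AddGroup.FG (H V n i)

/-- The integral arithmetic schemes in the class `𝒴` are *cofinal*: every integral arithmetic scheme `X`
has a nonempty open subscheme `U` with a finite flat cover `V ⟶ U`, where `V` is a nonempty open
subscheme of a scheme `Y` in the class, whose dimension is at most the dimension of `X`. -/
def Cofinal (𝒴 : Scheme.{0} → Prop) : Prop :=
  ∀ X : Scheme.{0}, IsArithmetic X → IsIntegral X → ∃ (Y : Scheme.{0}) (V : Y.Opens) (U : X.Opens)
    (f : V.toScheme ⟶ U.toScheme), (𝒴 Y ∧ IsArithmetic Y ∧ IsIntegral Y) ∧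
      topologicalKrullDim Y ≤ topologicalKrullDim X ∧ (V : Set Y).Nonempty ∧ (U : Set X).Nonempty ∧
      IsFinite f ∧ Flat f ∧ Surjective f

end Pool.Agent.K6.H79.FC
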