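import Pool.Agent.K6.H79.FC.Group

/-!
# Potential finite generation
-/

set_option autoImplicit false

namespace Pool.Agent.K6.H79.FC

open AlgebraicGeometry CategoryTheory Pool.Agent.K6.H18.Arith

variable {H : Scheme.{0} → ℤ → ℤ → Type} [∀ X n i, AddCommGroup (H X n i)] {n i : ℤ}

lemma fg_glue (hH : IsCycleTheory H) (hn : n < 0) {Z X U : Scheme.{0}} (f : Z ⟶ X) (g : U ⟶ X)
    [IsClosedImmersion f] [IsOpenImmersion g] (hX : IsArithmetic X)
    (hr : Set.range g = (Set.range f)ᶜ) (h1 : AddGroup.FG (H Z n i)) (h2 : AddGroup.FG (H U n i)) :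
    AddGroup.FG (H X n i) := by
  obtain ⟨a, b, c, h3, h4, h5⟩ := hH.localization f g hX hr n hn
  exact fg_of_exact _ _ (h3 i) h1 h2

lemma fg_empty (hT : HasTransfers H) (E : Scheme.{0}) (hE : IsEmpty E) :
    AddGroup.FG (H E n i) := by
  have := hT.empty E hE n i
  exact AddGroup.fg_of_finite

lemma fg_iso (hH : IsCycleTheory H) {X Y : Scheme.{0}} (e : X ≅ Y) (h : AddGroup.FG (H X n i)) :
    AddGroup.FG (H Y n i) := by
  obtain ⟨σ⟩ := hH.iso e n i
  exact AddGroup.fg_of_surjective (f := σ.toAddMonoidHom) σ.surjective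

/-- Descent along finite covers. -/
theorem fg_transfer (hT : HasTransfers H) (hn : n < 0) {X Y : Scheme.{0}} (f : Y ⟶ X)
    (hf : IsCover f) (hX : IsArithmetic X)
    (hY : AddGroup.FG (H Y n i)) : AddGroup.FG (H X n i) := by
  obtain ⟨d, hd, pull, push, h⟩ := hT.transfer f hf hX n hn i
  refine fg_of_multiple (hT.torsion X hX n hn i) ⟨d, hd, push.range, ?_, fun a => ?_⟩
  · rw [← AddGroup.fg_iff_addSubgroup_fg]
    exact AddGroup.fg_of_surjective (f := push.rangeRestrict) push.rangeRestrict_surjective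
  · rw [← h a]
    exact ⟨_, rfl⟩

lemma range_restrict {X Z : Scheme.{0}} (f : Z ⟶ X) (U : X.Opens) (x : U.toScheme) :
    x ∈ Set.range (f ∣_ U) ↔ U.ι x ∈ Set.range f := by
  constructor
  · rintro ⟨y, rfl⟩
    exact ⟨(f ⁻¹ᵁ U).ι y, by
      rw [← Scheme.Hom.comp_apply, ← Scheme.Hom.comp_apply, morphismRestrict_ι]⟩
  · rintro ⟨y, hy⟩
    have hyU : y ∈ f ⁻¹ᵁ U := by
      change f y ∈ U
      rw [hy]; exact x.2
    exact ⟨(⟨y, hyU⟩ : (f ⁻¹ᵁ U).toScheme),
      Subtype.ext ((morphismRestrict_base_coe f U ⟨y, hyU⟩).trans hy)⟩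

lemma range_homOfLE {X : Scheme.{0}} {U W : X.Opens} (h : U ≤ W) (x : W.toScheme) :
    x ∈ Set.range (X.homOfLE h) ↔ W.ι x ∈ U := by
  constructor
  · rintro ⟨y, rfl⟩
    rw [← Scheme.Hom.comp_apply, Scheme.homOfLE_ι]
    exact y.2
  · intro hx
    have hy : W.ι (X.homOfLE h (⟨W.ι x, hx⟩ : U.toScheme)) = W.ι x := by
      have := congr($(X.homOfLE_ι h) (⟨W.ι x, hx⟩ : U.toScheme))
      exact this
    exact ⟨_, W.ι.injective hy⟩

lemma isCompact_opens (B : Type) [CommRing B] [IsNoetherianRing B]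
    (U : (Spec (CommRingCat.of B)).Opens) : IsCompact (U : Set (Spec (CommRingCat.of B))) := by
  have : TopologicalSpace.NoetherianSpace (Spec (CommRingCat.of B)) :=
    inferInstanceAs (TopologicalSpace.NoetherianSpace (PrimeSpectrum B))
  exact TopologicalSpace.NoetherianSpace.isCompact _

/-- A class of schemes which contains the subschemes of its members. -/
def Hereditary (Q : Scheme.{0} → Prop) : Prop :=
  ∀ {X Y : Scheme.{0}} (f : Y ⟶ X), Topology.IsInducing f → Q X → Q Y

/-- Potential finite generation for the schemes in a class. -/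
def PotentialOn (H : Scheme.{0} → ℤ → ℤ → Type) [∀ X n i, AddCommGroup (H X n i)]
    (Q : Scheme.{0} → Prop) (n i : ℤ) : Prop :=
  ∀ X : Scheme.{0}, IsArithmetic X → IsIntegral X → Q X → ∃ (U : X.Opens) (V : Scheme.{0})
    (f : V ⟶ U.toScheme), (U : Set X).Nonempty ∧ IsFinite f ∧ Flat f ∧ Surjective f ∧
      AddGroup.FG (H V n i)

variable {Q : Scheme.{0} → Prop}

/-- The group of every open subscheme of the spectrum of `B` is finitely generated. -/
def OpensFG (H : Scheme.{0} → ℤ → ℤ → Type) [∀ X n i, AddCommGroup (H X n i)] (n i : ℤ)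
    (B : Type) [CommRing B] : Prop :=
  ∀ W : (Spec (CommRingCat.of B)).Opens, AddGroup.FG (H W.toScheme n i)

/-- The closed subscheme of the spectrum of `B` defined by `J`. -/
noncomputable def cl (B : Type) [CommRing B] (J : Ideal B) :
    Spec (CommRingCat.of (B ⧸ J)) ⟶ Spec (CommRingCat.of B) :=
  Spec.map (CommRingCat.ofHom (Ideal.Quotient.mk J))

instance (B : Type) [CommRing B] (J : Ideal B) : IsClosedImmersion (cl B J) :=
  IsClosedImmersion.spec_of_surjective _ Ideal.Quotient.mk_surjective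

lemma range_cl (B : Type) [CommRing B] (J : Ideal B) :
    Set.range (cl B J) = PrimeSpectrum.zeroLocus (J : Set B) := by
  have : Set.range (cl B J) = PrimeSpectrum.zeroLocus (RingHom.ker (Ideal.Quotient.mk J) : Set B) :=
    range_comap_of_surjective _ _ Ideal.Quotient.mk_surjective
  rw [this, Ideal.mk_ker]

lemma mem_range_cl (B : Type) [CommRing B] (c : B) (x : Spec (CommRingCat.of B)) :
    x ∈ Set.range (cl B (Ideal.span {c})) ↔ c ∈ x.asIdeal := by
  rw [range_cl, PrimeSpectrum.zeroLocus_span]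
  exact (PrimeSpectrum.mem_zeroLocus _ _).trans Set.singleton_subset_iff

/-- The case of an affine integral scheme. -/
lemma opensFG_domain (hH : IsCycleTheory H) (hT : HasTransfers H) (hn : n < 0)
    (hQ : Hereditary Q) (hP : PotentialOn H Q n i) (B : Type) [CommRing B] [IsDomain B] (hB : Algebra.FiniteType ℤ B)
    (hQB : Q (Spec (CommRingCat.of B)))
    (ih : ∀ J : Ideal B, J ≠ ⊥ → OpensFG H n i (B ⧸ J)) : OpensFG H n i B := by
  intro W
  have hX : IsArithmetic (Spec (CommRingCat.of B)) := isArithmetic_Spec B hB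
  have hN : IsNoetherianRing B := Algebra.FiniteType.isNoetherianRing ℤ B
  by_cases hW : IsEmpty W.toScheme
  · exact fg_empty hT _ hW
  rw [not_isEmpty_iff] at hW
  have hWa : IsArithmetic W.toScheme := hX.opens W (isCompact_opens B W)
  have hWi : IsIntegral W.toScheme := isIntegral_of_isOpenImmersion W.ι
  obtain ⟨U, V, f, hU, hf1, hf2, hf3, hV⟩ := hP _ hWa hWi
    (hQ W.ι W.ι.isOpenEmbedding.isInducing hQB)
  have : Nonempty U.toScheme := hU.to_subtype
  have hUi : IsIntegral U.toScheme := isIntegral_of_isOpenImmersion U.ι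
  let U' : (Spec (CommRingCat.of B)).Opens := W.ι ''ᵁ U
  have hUa : IsArithmetic U.toScheme := by
    refine hWa.opens U ?_
    have h1 : IsCompact (W.ι '' (U : Set W.toScheme)) := isCompact_opens B U'
    exact W.ι.isOpenEmbedding.isInducing.isCompact_iff.mpr h1
  have hUP : AddGroup.FG (H U.toScheme n i) :=
    fg_transfer hT hn f ⟨hf1, hf3, Or.inl ⟨inferInstance, hf2⟩⟩ hUa hV
  let W' : Set (PrimeSpectrum B) := {x | (show Spec (CommRingCat.of B) from x) ∈ U'}
  have hW' : IsOpen W' := U'.2
  let J : Ideal B := PrimeSpectrum.vanishingIdeal W'ᶜ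
  have hJ : PrimeSpectrum.zeroLocus (J : Set B) = W'ᶜ := by
    rw [PrimeSpectrum.zeroLocus_vanishingIdeal_eq_closure]
    exact hW'.isClosed_compl.closure_eq
  have hJ0 : J ≠ ⊥ := by
    intro h
    rw [h] at hJ
    obtain ⟨x, hx⟩ := hU
    have h1 : (W.ι x : PrimeSpectrum B) ∈ PrimeSpectrum.zeroLocus ((⊥ : Ideal B) : Set B) := by
      rw [PrimeSpectrum.zeroLocus_bot]
      trivial
    rw [hJ] at h1
    exact h1 ⟨x, hx, rfl⟩
  refine fg_glue hH hn (cl B J ∣_ W) U.ι hWa ?_ (ih J hJ0 _) hUP
  ext x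
  rw [Scheme.Opens.range_ι, Set.mem_compl_iff, range_restrict, range_cl, hJ]
  constructor
  · intro hx h
    exact h ⟨x, hx, rfl⟩
  · intro h
    by_contra hx
    apply h
    rintro ⟨y, hy, hyx⟩
    exact hx (W.ι.injective hyx ▸ hy)

/-- The case of an affine scheme with zero divisors. -/
lemma opensFG_divisors (hH : IsCycleTheory H) (hT : HasTransfers H) (hn : n < 0)
    (B : Type) [CommRing B] (hB : Algebra.FiniteType ℤ B) (a b : B) (hab : a * b = 0)
    (iha : OpensFG H n i (B ⧸ Ideal.span {a})) (ihb : OpensFG H n i (B ⧸ Ideal.span {b})) :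
    OpensFG H n i B := by
  intro W
  have hX : IsArithmetic (Spec (CommRingCat.of B)) := isArithmetic_Spec B hB
  have hN : IsNoetherianRing B := Algebra.FiniteType.isNoetherianRing ℤ B
  have hWa : IsArithmetic W.toScheme := hX.opens W (isCompact_opens B W)
  let U : (Spec (CommRingCat.of B)).Opens := W ⊓ PrimeSpectrum.basicOpen a
  have hUW : U ≤ W := inf_le_left
  have hUa : IsArithmetic U.toScheme := hX.opens U (isCompact_opens B U)
  have hPU : AddGroup.FG (H U.toScheme n i) := by
    have hE : IsEmpty ((⊥ : U.toScheme.Opens).toScheme) := ⟨fun x => x.2⟩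
    refine fg_glue hH hn (cl B (Ideal.span {b}) ∣_ U) (⊥ : U.toScheme.Opens).ι hUa ?_
      (ihb _) (fg_empty hT _ hE)
    rw [Scheme.Opens.range_ι]
    ext x
    have h1 : x ∈ Set.range (cl B (Ideal.span {b}) ∣_ U) := by
      rw [range_restrict, mem_range_cl]
      have hxa : a ∉ (U.ι x).asIdeal := x.2.2
      have h0 : a * b ∈ (U.ι x).asIdeal := by rw [hab]; exact Ideal.zero_mem _
      exact ((U.ι x).isPrime.mem_or_mem h0).resolve_left hxa
    constructor
    · intro h; exact absurd h (by simp)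
    · intro h; exact absurd h1 h
  refine fg_glue hH hn (cl B (Ideal.span {a}) ∣_ W) ((Spec (CommRingCat.of B)).homOfLE hUW) hWa ?_
    (iha _) hPU
  ext x
  rw [range_homOfLE, Set.mem_compl_iff, range_restrict, mem_range_cl]
  constructor
  · intro hx
    exact hx.2
  · intro hx
    exact ⟨x.2, hx⟩

/-- All affine arithmetic schemes. -/
theorem opensFG_spec (hH : IsCycleTheory H) (hT : HasTransfers H) (hn : n < 0)
    (hQ : Hereditary Q) (hP : PotentialOn H Q n i) (A : Type) [CommRing A] (hA : Algebra.FiniteType ℤ A) (I : Ideal A) :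
    ∀ (B : Type) [CommRing B] (φ : A →+* B), Function.Surjective φ → RingHom.ker φ = I →
      Q (Spec (CommRingCat.of B)) → OpensFG H n i B := by
  have hN : IsNoetherianRing A := Algebra.FiniteType.isNoetherianRing ℤ A
  induction I using IsNoetherian.induction with
  | hgt I ih =>
    intro B _ φ hφ hI hQB
    have hB : Algebra.FiniteType ℤ B := hA.of_surjective φ.toIntAlgHom hφ
    have ih' : ∀ J : Ideal B, J ≠ ⊥ → OpensFG H n i (B ⧸ J) := by
      intro J hJ
      refine ih (RingHom.ker ((Ideal.Quotient.mk J).comp φ)) ?_ (B ⧸ J)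
        ((Ideal.Quotient.mk J).comp φ) (Ideal.Quotient.mk_surjective.comp hφ) rfl
        (hQ (cl B J) (cl B J).isClosedEmbedding.isInducing hQB)
      rw [gt_iff_lt, lt_iff_le_and_ne, ← hI]
      constructor
      · intro x hx
        rw [RingHom.mem_ker] at hx ⊢
        rw [RingHom.comp_apply, hx, map_zero]
      · intro h
        apply hJ
        rw [eq_bot_iff]
        intro y hy
        obtain ⟨x, rfl⟩ := hφ y
        have h1 : x ∈ RingHom.ker ((Ideal.Quotient.mk J).comp φ) :=
          Ideal.Quotient.eq_zero_iff_mem.mpr hy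
        rw [← h] at h1
        exact h1
    by_cases hs : Subsingleton B
    · intro W
      have : IsEmpty W.toScheme := by
        constructor
        intro x
        exact (inferInstance : IsEmpty (PrimeSpectrum B)).false (W.ι x)
      exact fg_empty hT _ this
    · have hnt : Nontrivial B := not_subsingleton_iff_nontrivial.mp hs
      by_cases hd : NoZeroDivisors B
      · have : IsDomain B := NoZeroDivisors.to_isDomain B
        exact opensFG_domain hH hT hn hQ hP B hB hQB ih'
      · obtain ⟨a, b, hab, ha, hb⟩ : ∃ a b : B, a * b = 0 ∧ a ≠ 0 ∧ b ≠ 0 := by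
          by_contra hc
          push Not at hc
          apply hd
          constructor
          intro a b hab
          by_contra h
          push Not at h
          exact h.2 (hc a b hab h.1)
        refine opensFG_divisors hH hT hn B hB a b hab (ih' _ ?_) (ih' _ ?_)
        · rwa [Ne, Ideal.span_singleton_eq_bot]
        · rwa [Ne, Ideal.span_singleton_eq_bot]

lemma fg_affine (hH : IsCycleTheory H) (hT : HasTransfers H) (hn : n < 0)
    (hQ : Hereditary Q) (hP : PotentialOn H Q n i) (X : Scheme.{0}) [IsAffine X]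
    (hX : IsArithmetic X) (hQX : Q X) : AddGroup.FG (H X n i) := by
  have hS : IsArithmetic (Spec Γ(X, ⊤)) := hX.comp X.isoSpec.inv
  have h1 : OpensFG H n i Γ(X, ⊤) :=
    opensFG_spec hH hT hn hQ hP Γ(X, ⊤) (finiteType_of_isArithmetic hS) _ _ (RingHom.id _)
      Function.surjective_id rfl (hQ X.isoSpec.inv X.isoSpec.inv.isOpenEmbedding.isInducing hQX)
  exact fg_iso hH X.isoSpec.symm (fg_iso hH (Scheme.topIso (Spec Γ(X, ⊤))) (h1 ⊤))

/-- From affine schemes to all schemes. -/
theorem fg_of_affine (hH : IsCycleTheory H) (hT : HasTransfers H) (hn : n < 0)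
    (hQ : Hereditary Q)
    (haff : ∀ X : Scheme.{0}, IsAffine X → IsArithmetic X → Q X → AddGroup.FG (H X n i))
    (X : Scheme.{0}) (hX : IsArithmetic X) (hQX : Q X) : AddGroup.FG (H X n i) := by
  have key : ∀ (m : ℕ) (X : Scheme.{0}), IsArithmetic X → Q X → ∀ V : Fin m → X.Opens,
      (∀ k, IsAffineOpen (V k)) → (⨆ k, V k) = ⊤ → AddGroup.FG (H X n i) := by
    intro m
    induction m with
    | zero =>
      intro X hX _ V _ hV
      refine fg_empty hT X ⟨fun x => ?_⟩
      rw [iSup_of_empty] at hV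
      have : x ∈ (⊥ : X.Opens) := by rw [hV]; trivial
      exact this
    | succ m ih =>
      intro X hX hQX V hV hcov
      have hcl : IsClosed ((V 0 : Set X)ᶜ) := (V 0).isOpen.isClosed_compl
      let I := Scheme.IdealSheafData.vanishingIdeal (⟨(V 0 : Set X)ᶜ, hcl⟩ :
        TopologicalSpace.Closeds X)
      have hsupp : (I.support : Set X) = (V 0 : Set X)ᶜ :=
        Scheme.IdealSheafData.coe_support_vanishingIdeal _
      have hZ : AddGroup.FG (H I.subscheme n i) := by
        refine ih I.subscheme (hX.closed I.subschemeι)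
          (hQ I.subschemeι I.subschemeι.isClosedEmbedding.isInducing hQX) (fun k ↦ I.subschemeι ⁻¹ᵁ (V k.succ))
          (fun k ↦ (hV k.succ).preimage I.subschemeι) ?_
        rw [eq_top_iff]
        intro x _
        have hx : I.subschemeι x ∈ (⨆ k, V k : X.Opens) := by rw [hcov]; trivial
        obtain ⟨k, hk⟩ := TopologicalSpace.Opens.mem_iSup.mp hx
        have hx0 : I.subschemeι x ∉ V 0 := by
          have : I.subschemeι x ∈ (I.support : Set X) := by
            rw [← Scheme.IdealSheafData.range_subschemeι]; exact ⟨x, rfl⟩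
          rw [hsupp] at this
          exact this
        refine TopologicalSpace.Opens.mem_iSup.mpr ?_
        obtain rfl | ⟨l, rfl⟩ := Fin.eq_zero_or_eq_succ k
        · exact absurd hk hx0
        · exact ⟨l, hk⟩
      have hU : AddGroup.FG (H (V 0).toScheme n i) := by
        have : IsAffine (V 0).toScheme := hV 0
        exact haff _ this (hX.opens _ (hV 0).isCompact)
          (hQ (V 0).ι (V 0).ι.isOpenEmbedding.isInducing hQX)
      refine fg_glue hH hn I.subschemeι (V 0).ι hX ?_ hZ hU
      rw [Scheme.Opens.range_ι, Scheme.IdealSheafData.range_subschemeι, hsupp, compl_compl]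
  have : CompactSpace X := hX.compactSpace
  obtain ⟨s, hs, hcov⟩ := (isCompact_iff_finite_and_eq_biUnion_affineOpens (U := (⊤ : X.Opens))).mp
    (by simpa using isCompact_univ)
  have : Finite s := hs
  obtain ⟨m, ⟨e⟩⟩ := Finite.exists_equiv_fin s
  refine key m X hX hQX (fun k ↦ ((e.symm k).1 : X.Opens)) (fun k ↦ (e.symm k).1.2) ?_
  rw [hcov, iSup_subtype', ← e.symm.iSup_comp]

/-- Potential finite generation implies finite generation, in a class of schemes. -/
theorem fg_class (hH : IsCycleTheory H) (hT : HasTransfers H) (hn : n < 0)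
    (hQ : Hereditary Q) (hP : PotentialOn H Q n i) (X : Scheme.{0}) (hX : IsArithmetic X)
    (hQX : Q X) : AddGroup.FG (H X n i) :=
  fg_of_affine hH hT hn hQ (fun Y _ hY hQY => fg_affine hH hT hn hQ hP Y hY hQY) X hX hQX

/-- Potential finite generation implies finite generation. -/
theorem fg_all (hH : IsCycleTheory H) (hT : HasTransfers H) (hn : n < 0)
    (hP : Potential H n i) (X : Scheme.{0}) (hX : IsArithmetic X) : AddGroup.FG (H X n i) :=
  fg_class (Q := fun _ => True) hH hT hn (fun _ _ _ => trivial)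
    (fun Y hY hY' _ => hP Y hY hY') X hX trivial

lemma potential_of_all (h : ∀ X : Scheme.{0}, IsArithmetic X → AddGroup.FG (H X n i)) :
    Potential H n i := by
  intro X hX hXi
  have : CompactSpace X := hX.compactSpace
  have : IsArithmetic (⊤ : X.Opens).toScheme := hX.opens ⊤ isCompact_univ
  exact ⟨⊤, _, 𝟙 _, Set.univ_nonempty, inferInstance, inferInstance, inferInstance, h _ this⟩

/-- In a fixed weight and degree. -/
theorem all_iff (hH : IsCycleTheory H) (hT : HasTransfers H) (hn : n < 0) :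
    (∀ X : Scheme.{0}, IsArithmetic X → AddGroup.FG (H X n i)) ↔ Potential H n i :=
  ⟨potential_of_all, fun hP X hX => fg_all hH hT hn hP X hX⟩

/-- From the weight `-1` to all negative weights. -/
theorem all_weights (hH : IsCycleTheory H) (s : ℤ)
    (h : ∀ X : Scheme.{0}, IsArithmetic X → AddGroup.FG (H X (-1) (2 - s))) (n : ℤ) (hn : n < 0) :
    ∀ X : Scheme.{0}, IsArithmetic X → AddGroup.FG (H X n (-2 * n - s)) := by
  obtain ⟨k, rfl⟩ : ∃ k : ℕ, n = -1 - (k : ℤ) := ⟨(-1 - n).toNat, by omega⟩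
  clear hn
  induction k with
  | zero => simpa using h
  | succ k ih =>
    intro X hX
    obtain ⟨σ⟩ := hH.line X hX (-1 - (k : ℤ)) (by omega) (-2 * (-1 - (k : ℤ)) - s)
    have h1 := ih _ hX.line
    have h2 : AddGroup.FG (H X (-1 - (k : ℤ) - 1) (-2 * (-1 - (k : ℤ)) - s + 2)) :=
      AddGroup.fg_of_surjective (f := σ.toAddMonoidHom) σ.surjective
    rw [show -2 * (-1 - ((k + 1 : ℕ) : ℤ)) - s = -2 * (-1 - (k : ℤ)) - s + 2 by push_cast; ring,
      show -1 - ((k + 1 : ℕ) : ℤ) = -1 - (k : ℤ) - 1 by push_cast; ring]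
    exact h2

/-- The question in the degrees `-2 n - s`. -/
theorem question_iff (hH : IsCycleTheory H) (hT : HasTransfers H) (s : ℤ) :
    (∀ n : ℤ, n < 0 → ∀ X : Scheme.{0}, IsArithmetic X → AddGroup.FG (H X n (-2 * n - s))) ↔
      Potential H (-1) (2 - s) := by
  rw [← all_iff hH hT (by norm_num : (-1 : ℤ) < 0)]
  constructor
  · intro h X hX
    have := h (-1) (by norm_num) X hX
    rwa [show -2 * (-1 : ℤ) - s = 2 - s by ring] at this
  · intro h n hn X hX
    exact all_weights hH s h n hn X hX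

/-- Quotients by group actions. -/
theorem fg_quotient (hT : HasTransfers H) (hn : n < 0) {Y : Scheme.{0}} (hY : IsArithmetic Y)
    {G : Type} [Group G] [Finite G] (φ : G →* Aut Y) (J : Subgroup G) {Z : Scheme.{0}} (f : Y ⟶ Z)
    (hf : IsQuotient φ J f) (𝒦 : Set (Subgroup G)) (h𝒦 : FixedBelow J 𝒦)
    (h : QuotientsFG H φ 𝒦 n i) :
    AddGroup.FG (H Z n i) := by
  obtain ⟨act, hact⟩ := hT.galois Y G φ hY n hn i
  obtain ⟨m, hm, F, hF, h1⟩ := multiple_of_norms (act := act) h𝒦 (fun K hK => by
    obtain ⟨Z', g, hg, hfg⟩ := h K hK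
    obtain ⟨M, hM, pull, push, h2, h3⟩ := hact K Z' g hg
    refine ⟨M, hM, pull.range, ?_, fun a => ?_⟩
    · rw [← AddGroup.fg_iff_addSubgroup_fg]
      exact AddGroup.fg_of_surjective (f := pull.rangeRestrict) pull.rangeRestrict_surjective
    · rw [← h2]
      exact ⟨_, rfl⟩)
  obtain ⟨M, hM, pull, push, h2, h3⟩ := hact J Z f hf
  have hJ : 0 < Nat.card J := Nat.card_pos
  refine fg_of_multiple (hT.torsion Z hf.arithmetic n hn i)
    ⟨m * (M * Nat.card J) * (M * Nat.card J), by positivity, F.map push, ?_, fun z => ?_⟩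
  · obtain ⟨s, hs⟩ := hF
    classical
    exact ⟨s.image push, by rw [Finset.coe_image, ← hs, AddMonoidHom.map_closure]⟩
  · refine ⟨M • m • (∑ᶠ k : J, act k (pull z)), F.nsmul_mem (h1 (pull z)) M, ?_⟩
    rw [smul_comm, ← h2, h3, map_nsmul, map_nsmul, map_nsmul, h3, smul_smul, smul_smul]

end Pool.Agent.K6.H79.FC
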