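import Pool.Agent.K6.H79.FC.Dev

/-!
# Regular proper schemes
-/

set_option autoImplicit false

namespace Pool.Agent.K6.H79.FC

open AlgebraicGeometry CategoryTheory Pool.Agent.K6.H18.Arith TopologicalSpace

lemma dim_lt {X Z : Type} [TopologicalSpace X] [TopologicalSpace Z] [IrreducibleSpace X]
    (c : Z → X) (hc : Topology.IsClosedEmbedding c) (hne : Set.range c ≠ Set.univ) {d : ℕ}
    (h : topologicalKrullDim X < ((d + 1 : ℕ) : WithBot ℕ∞)) :
    topologicalKrullDim Z < (d : WithBot ℕ∞) := by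
  have h' : ∀ l : LTSeries (IrreducibleCloseds X), l.length < d + 1 := by
    rw [← Order.krullDim_lt_coe_iff]
    exact_mod_cast h
  have h2 : Order.krullDim (IrreducibleCloseds Z) < (d : WithBot ℕ∞) := by
    rw [Order.krullDim_lt_coe_iff]
    intro l
    let T : IrreducibleCloseds X := ⟨Set.univ, IrreducibleSpace.isIrreducible_univ X, isClosed_univ⟩
    let l' := l.map (IrreducibleCloseds.map c hc.continuous)
      (IrreducibleCloseds.map_strictMono_of_isInducing hc.isInducing)
    have hlt : l'.last < T := by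
      rw [lt_iff_le_and_ne]
      refine ⟨fun x _ => trivial, fun h => hne ?_⟩
      have h3 : (l'.last : Set X) ⊆ Set.range c := by
        have h4 : l'.last = IrreducibleCloseds.map c hc.continuous l.last := by
          simp [l']
        rw [h4, IrreducibleCloseds.coe_map]
        exact closure_minimal (Set.image_subset_range _ _) hc.isClosed_range
      rw [h] at h3
      exact Set.eq_univ_of_univ_subset h3
    have h5 := h' (l'.snoc T hlt)
    have h6 : (l'.snoc T hlt).length = l.length + 1 := by simp [l']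
    omega
  exact h2

lemma exists_dim (A : Type) [CommRing A] (hA : Algebra.FiniteType ℤ A) :
    ∃ d : ℕ, topologicalKrullDim (Spec (CommRingCat.of A)) < (d : WithBot ℕ∞) := by
  obtain ⟨m, f, hf⟩ := Algebra.FiniteType.iff_quotient_mvPolynomial''.mp hA
  refine ⟨m + 2, ?_⟩
  have h1 : topologicalKrullDim (Spec (CommRingCat.of A)) = ringKrullDim A :=
    PrimeSpectrum.topologicalKrullDim_eq_ringKrullDim A
  have h2 : ringKrullDim A ≤ ringKrullDim (MvPolynomial (Fin m) ℤ) :=
    ringKrullDim_le_of_surjective f.toRingHom hf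
  have h3 : ringKrullDim ℤ = 1 := IsPrincipalIdealRing.ringKrullDim_eq_one ℤ Int.not_isField
  rw [MvPolynomial.ringKrullDim_of_isNoetherianRing, h3, Nat.card_eq_fintype_card,
    Fintype.card_fin] at h2
  rw [h1]
  refine h2.trans_lt ?_
  have h4 : (1 : WithBot ℕ∞) + (m : WithBot ℕ∞) = ((m + 1 : ℕ) : WithBot ℕ∞) := by
    push_cast; ring
  rw [h4]
  exact_mod_cast Nat.lt_succ_self (m + 1)

variable {H : Scheme.{0} → ℤ → ℤ → Type} [∀ X n i, AddCommGroup (H X n i)] {n i : ℤ}

/-- The schemes of dimension less than `d`. -/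
def DimLT (d : ℕ) (X : Scheme.{0}) : Prop := topologicalKrullDim X < (d : WithBot ℕ∞)

lemma hereditary_dimLT (d : ℕ) : Hereditary (DimLT d) :=
  fun _ hf h => hf.topologicalKrullDim_le.trans_lt h

variable {𝒴 : Scheme.{0} → Prop} {i₀ : ℤ}

/-- Reduction to a cofinal class, in dimension less than `d`. -/
theorem fg_dim (hH : IsCycleTheory H) (hT : HasTransfers H) (hn : n < 0) (hJ : Cofinal 𝒴)
    (hR : ∀ Y : Scheme.{0}, 𝒴 Y → IsArithmetic Y → IsIntegral Y →
      ∀ i, i₀ ≤ i → AddGroup.FG (H Y n i)) (d : ℕ) :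
    ∀ X : Scheme.{0}, IsArithmetic X → DimLT d X → ∀ i, i₀ ≤ i → AddGroup.FG (H X n i) := by
  induction d with
  | zero =>
    intro X _ hd i _
    refine fg_empty hT X ?_
    by_contra hne
    rw [not_isEmpty_iff] at hne
    obtain ⟨x⟩ := hne
    have h' : ∀ l : LTSeries (IrreducibleCloseds X), l.length < 0 := by
      rw [← Order.krullDim_lt_coe_iff]
      exact hd
    exact absurd (h' (RelSeries.singleton _
      (⟨closure {x}, isIrreducible_singleton.closure, isClosed_closure⟩ :
        IrreducibleCloseds X))) (by simp)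
  | succ d ih =>
    intro X hX hd i hi
    refine fg_class hH hT hn (hereditary_dimLT (d + 1)) ?_ X hX hd
    intro X hX hXi hd
    obtain ⟨Y, V, U, f, ⟨hY, hYa, hYi⟩, hdim, hVne, hUne, hf1, hf2, hf3⟩ := hJ X hX hXi
    refine ⟨U, V.toScheme, f, hUne, hf1, hf2, hf3, ?_⟩
    have hcl : IsClosed ((V : Set Y)ᶜ) := V.isOpen.isClosed_compl
    let I := Scheme.IdealSheafData.vanishingIdeal (⟨(V : Set Y)ᶜ, hcl⟩ : Closeds Y)
    have hrange : Set.range I.subschemeι = (V : Set Y)ᶜ := by
      rw [Scheme.IdealSheafData.range_subschemeι]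
      exact Scheme.IdealSheafData.coe_support_vanishingIdeal _
    have hdimZ : DimLT d I.subscheme := by
      refine dim_lt I.subschemeι I.subschemeι.isClosedEmbedding ?_ (hdim.trans_lt hd)
      rw [hrange]
      intro h
      obtain ⟨y, hy⟩ := hVne
      have : y ∈ (V : Set Y)ᶜ := by rw [h]; trivial
      exact this hy
    have hZ := ih I.subscheme (hYa.closed I.subschemeι) hdimZ
    obtain ⟨a, b, c, h3, h4, h5⟩ := hH.localization I.subschemeι V.ι hYa
      (by rw [Scheme.Opens.range_ι, hrange, compl_compl]) n hn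
    exact fg_of_exact _ _ (h4 i) (hR Y hY hYa hYi i hi) (hZ (i + 1) (by omega))

/-- Reduction to a cofinal class. -/
theorem cofinal_iff (hH : IsCycleTheory H) (hT : HasTransfers H) (hn : n < 0) (hJ : Cofinal 𝒴) :
    (∀ X : Scheme.{0}, IsArithmetic X → ∀ i, i₀ ≤ i → AddGroup.FG (H X n i)) ↔
      ∀ Y : Scheme.{0}, 𝒴 Y → IsArithmetic Y → IsIntegral Y →
        ∀ i, i₀ ≤ i → AddGroup.FG (H Y n i) := by
  refine ⟨fun h Y _ hY _ => h Y hY, fun hR X hX i hi => ?_⟩
  refine fg_of_affine (Q := fun _ => True) hH hT hn (fun _ _ _ => trivial) ?_ X hX trivial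
  intro X hXa hX _
  have hS : IsArithmetic (Spec Γ(X, ⊤)) := hX.comp X.isoSpec.inv
  obtain ⟨d, hd⟩ := exists_dim Γ(X, ⊤) (finiteType_of_isArithmetic hS)
  exact fg_iso hH X.isoSpec.symm (fg_dim hH hT hn hJ hR d _ hS hd i hi)

/-- Reduction to a cofinal class and to weight `-1`. -/
theorem cofinal_weight (hH : IsCycleTheory H) (hT : HasTransfers H) (hJ : Cofinal 𝒴) (s₀ : ℤ) :
    (∀ n : ℤ, n < 0 → ∀ X : Scheme.{0}, IsArithmetic X → ∀ s ≤ s₀,
        AddGroup.FG (H X n (-2 * n - s))) ↔
      ∀ Y : Scheme.{0}, 𝒴 Y → IsArithmetic Y → IsIntegral Y → ∀ s ≤ s₀,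
        AddGroup.FG (H Y (-1) (2 - s)) := by
  have h1 := cofinal_iff (i₀ := 2 - s₀) hH hT (by norm_num : (-1 : ℤ) < 0) hJ
  constructor
  · intro h Y _ hY _ s hs
    have := h (-1) (by norm_num) Y hY s hs
    rwa [show -2 * (-1 : ℤ) - s = 2 - s by ring] at this
  · intro h n hn X hX s hs
    refine all_weights hH s (fun X hX => ?_) n hn X hX
    refine h1.mpr (fun Y hY hYa hYi i hi => ?_) X hX (2 - s) (by omega)
    have := h Y hY hYa hYi (2 - i) (by omega)
    rwa [show 2 - (2 - i) = i by ring] at this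

end Pool.Agent.K6.H79.FC
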