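import Pool.Agent.K6.H79.FC.Main
import Pool.Agent.K6.H79.TX.Pair

/-!
# Weil numbers in CM fields
-/

set_option autoImplicit false

namespace Pool.Agent.K6.H79.FC

open NumberField

/-- An element of a CM field all of whose conjugates have absolute value `√q`. -/
theorem mul_conj_of_norm {K : Type} [Field K] [NumberField K] [IsCMField K] {a : K} {q : ℕ}
    (h : ∀ φ : K →+* ℂ, ‖φ a‖ ^ 2 = (q : ℝ)) : a * IsCMField.complexConj K a = (q : K) := by
  obtain ⟨φ⟩ : Nonempty (K →+* ℂ) := inferInstance
  apply φ.injective
  rw [map_mul, IsCMField.complexEmbedding_complexConj, map_natCast, Complex.mul_conj,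
    Complex.normSq_eq_norm_sq, h φ]
  simp

end Pool.Agent.K6.H79.FC
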