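import Pool.Agent.K6.H79.FC.Defs
import Pool.Agent.K6.H18.Arith.Main

/-!
# Norms and finite generation
-/

set_option autoImplicit false

namespace Pool.Agent.K6.H79.FC

open MonoidAlgebra

/-- The norm element of the subgroup `K`. -/
noncomputable def nm (k : Type) [Ring k] {G : Type} [Group G] [Finite G] (K : Subgroup G) :
    MonoidAlgebra k G :=
  letI := Fintype.ofFinite K
  ∑ g : K, MonoidAlgebra.single (g : G) (1 : k)

variable {G : Type} [Group G] [Finite G]

section scal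

/-- From integral to rational coefficients. -/
noncomputable abbrev cc (G : Type) [Group G] : MonoidAlgebra ℤ G →+* MonoidAlgebra ℚ G :=
  mapRingHom G (Int.castRingHom ℚ)

omit [Finite G] in
lemma cc_injective : Function.Injective (cc G) := by
  intro x y h
  ext g
  have := congrArg (fun z => z.coeff g) h
  simpa using this

lemma cc_nm (K : Subgroup G) : cc G (nm ℤ K) = nm ℚ K := by
  simp [nm, cc]

omit [Finite G] in
lemma exists_mul_int (y : MonoidAlgebra ℚ G) :
    ∃ k : ℕ, 0 < k ∧ ∃ w : MonoidAlgebra ℤ G, cc G w = (k : ℚ) • y := by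
  induction y using MonoidAlgebra.induction_on with
  | of g => exact ⟨1, one_pos, MonoidAlgebra.single g 1, by simp [cc]⟩
  | add x y hx hy =>
    obtain ⟨k, hk, w, hw⟩ := hx
    obtain ⟨l, hl, v, hv⟩ := hy
    refine ⟨k * l, Nat.mul_pos hk hl, (l : ℤ) • w + (k : ℤ) • v, ?_⟩
    rw [map_add, map_zsmul, map_zsmul, hw, hv, ← Int.cast_smul_eq_zsmul ℚ (l : ℤ),
      ← Int.cast_smul_eq_zsmul ℚ (k : ℤ), smul_smul, smul_smul, smul_add]
    push_cast
    rw [mul_comm (l : ℚ)]
  | smul r x hx =>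
    obtain ⟨k, hk, w, hw⟩ := hx
    refine ⟨k * r.den, Nat.mul_pos hk r.den_pos, r.num • w, ?_⟩
    rw [map_zsmul, hw, ← Int.cast_smul_eq_zsmul ℚ r.num, smul_smul, smul_smul]
    congr 1
    push_cast
    have : (r.num : ℚ) = r * r.den := by rw [Rat.mul_den_eq_num]
    rw [this]; ring

end scal

section good

variable {A : Type} [AddCommGroup A]

/-- The action of the group ring. -/
noncomputable abbrev psi (act : G →* AddMonoid.End A) : MonoidAlgebra ℤ G →ₐ[ℤ] AddMonoid.End A :=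
  MonoidAlgebra.lift ℤ (AddMonoid.End A) G act

/-- A multiple of `x` maps `A` to a finitely generated group. -/
def Good (act : G →* AddMonoid.End A) (x : MonoidAlgebra ℚ G) : Prop :=
  ∃ m : ℕ, 0 < m ∧ ∃ z : MonoidAlgebra ℤ G, cc G z = (m : ℚ) • x ∧
    ∃ F : AddSubgroup A, F.FG ∧ ∀ a, psi act z a ∈ F

variable {act : G →* AddMonoid.End A}

omit [Finite G] in
lemma Good.zero : Good act 0 :=
  ⟨1, one_pos, 0, by simp, ⊥, ⟨∅, by simp⟩, fun a => by simp⟩

omit [Finite G] in
lemma Good.add {x y : MonoidAlgebra ℚ G} (hx : Good act x) (hy : Good act y) :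
    Good act (x + y) := by
  obtain ⟨k, hk, w, hw, F, hF, h1⟩ := hx
  obtain ⟨l, hl, v, hv, F', hF', h2⟩ := hy
  refine ⟨k * l, Nat.mul_pos hk hl, (l : ℤ) • w + (k : ℤ) • v, ?_, F ⊔ F', hF.sup hF', fun a => ?_⟩
  · rw [map_add, map_zsmul, map_zsmul, hw, hv, ← Int.cast_smul_eq_zsmul ℚ (l : ℤ),
      ← Int.cast_smul_eq_zsmul ℚ (k : ℤ), smul_smul, smul_smul, smul_add]
    push_cast
    rw [mul_comm (l : ℚ)]
  · rw [map_add, map_zsmul, map_zsmul]
    exact add_mem (AddSubgroup.mem_sup_left (zsmul_mem (h1 a) _))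
      (AddSubgroup.mem_sup_right (zsmul_mem (h2 a) _))

omit [Finite G] in
lemma Good.mul {x : MonoidAlgebra ℚ G} (hx : Good act x) (y : MonoidAlgebra ℚ G) :
    Good act (y * x) := by
  obtain ⟨k, hk, w, hw, F, hF, h1⟩ := hx
  obtain ⟨l, hl, v, hv⟩ := exists_mul_int y
  refine ⟨l * k, Nat.mul_pos hl hk, v * w, ?_, F.map (psi act v), ?_, fun a => ?_⟩
  · rw [map_mul, hw, hv, smul_mul_smul_comm]
    push_cast; rfl
  · obtain ⟨s, hs⟩ := hF
    classical
    exact ⟨s.image (psi act v), by rw [Finset.coe_image, ← hs, AddMonoidHom.map_closure]; rfl⟩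
  · rw [map_mul]
    exact ⟨_, h1 a, rfl⟩

lemma psi_nm (K : Subgroup G) (a : A) : psi act (nm ℤ K) a = ∑ᶠ k : K, act k a := by
  let _ := Fintype.ofFinite K
  rw [finsum_eq_sum_of_fintype, nm, map_sum]
  simp only [MonoidAlgebra.lift_single, one_smul]
  exact AddMonoidHom.finsetSum_apply _ _ _

lemma Good.nm {K : Subgroup G}
    (h : ∃ M : ℕ, 0 < M ∧ ∃ F : AddSubgroup A, F.FG ∧ ∀ a, M • (∑ᶠ k : K, act k a) ∈ F)
    (b : MonoidAlgebra ℚ G) : Good act (nm ℚ K * b) := by
  obtain ⟨M, hM, F, hF, h1⟩ := h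
  obtain ⟨l, hl, v, hv⟩ := exists_mul_int b
  refine ⟨M * l, Nat.mul_pos hM hl, M • (FC.nm ℤ K * v), ?_, F, hF, fun a => ?_⟩
  · rw [map_nsmul, map_mul, hv, cc_nm, mul_smul_comm, ← Nat.cast_smul_eq_nsmul ℚ, smul_smul]
    push_cast; rfl
  · rw [map_nsmul, map_mul]
    have := h1 (psi act v a)
    rw [← psi_nm] at this
    exact this

omit [Finite G] in
/-- The fixed vectors in a simple module over the group ring. -/
lemma fixed_of_simple {J : Subgroup G} {𝒦 : Set (Subgroup G)} (h𝒦 : FixedBelow J 𝒦)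
    (S : Type) [AddCommGroup S] [Module ℚ S] [Module (MonoidAlgebra ℚ G) S]
    [IsScalarTower ℚ (MonoidAlgebra ℚ G) S] (hs : IsSimpleModule (MonoidAlgebra ℚ G) S)
    (w : S) (hw : w ≠ 0) (hJ : ∀ k ∈ J, (MonoidAlgebra.single k (1 : ℚ)) • w = w) :
    ∃ K ∈ 𝒦, ∃ v : S, v ≠ 0 ∧ ∀ k ∈ K, (MonoidAlgebra.single k (1 : ℚ)) • v = v := by
  set ρ : Representation ℚ G S := Representation.ofModule' (k := ℚ) (G := G) S with hρ
  have hlin : ρ.asAlgebraHom = Algebra.lsmul ℚ ℚ S := by
    rw [hρ, Representation.ofModule', Representation.asAlgebraHom, Equiv.apply_symm_apply]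
  have hact : ∀ k v, ρ k v = (MonoidAlgebra.single k (1 : ℚ)) • v := by
    intro k v
    have h1 := congrArg (fun f => f (MonoidAlgebra.single k (1 : ℚ)) v) hlin
    simpa using h1
  let e : ρ.asModule ≃ₗ[MonoidAlgebra ℚ G] S :=
    { ρ.asModuleEquiv with
      map_smul' := fun r x => by
        have h1 := ρ.asModuleEquiv_map_smul r x
        rw [hlin] at h1
        exact h1 }
  have hirr : ρ.IsIrreducible := by
    rw [Representation.irreducible_iff_isSimpleModule_asModule]
    exact IsSimpleModule.congr e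
  obtain ⟨K, hK, v, hv, hfix⟩ := h𝒦 _ ρ hirr ⟨w, hw, fun k hk => by rw [hact]; exact hJ k hk⟩
  exact ⟨K, hK, v, hv, fun k hk => by rw [← hact]; exact hfix k hk⟩

lemma nm_mul_single {J : Subgroup G} {k : G} (hk : k ∈ J) :
    MonoidAlgebra.single k (1 : ℚ) * nm ℚ J = nm ℚ J := by
  let _ := Fintype.ofFinite J
  rw [nm, Finset.mul_sum]
  refine Fintype.sum_equiv (Equiv.mulLeft (⟨k, hk⟩ : J)) _ _ fun g => ?_
  rw [MonoidAlgebra.single_mul_single, one_mul]
  rfl

/-- The norms of the subgroups in `𝒦` generate a multiple of the norm of `J`. -/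
theorem multiple_of_norms {J : Subgroup G} {𝒦 : Set (Subgroup G)} (h𝒦 : FixedBelow J 𝒦)
    (h : ∀ K ∈ 𝒦, ∃ M : ℕ, 0 < M ∧ ∃ F : AddSubgroup A, F.FG ∧
      ∀ a, M • (∑ᶠ k : K, act k a) ∈ F) :
    ∃ m : ℕ, 0 < m ∧ ∃ F : AddSubgroup A, F.FG ∧ ∀ a : A, m • (∑ᶠ k : J, act k a) ∈ F := by
  set I : Submodule (MonoidAlgebra ℚ G) (MonoidAlgebra ℚ G) :=
    Submodule.span _ {x | ∃ K ∈ 𝒦, ∃ b, x = nm ℚ K * b} with hI
  have hgood : ∀ x ∈ I, Good act x := by
    intro x hx
    induction hx using Submodule.span_induction with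
    | mem x hx =>
      obtain ⟨K, hK, b, rfl⟩ := hx
      exact Good.nm (h K hK) b
    | zero => exact Good.zero
    | add x y _ _ hx hy => exact hx.add hy
    | smul c x _ hx => exact hx.mul c
  have htop : nm ℚ J ∈ I := by
    by_contra hne
    -- a simple submodule of the quotient on which the norm of `J` is not zero
    let T : Submodule (MonoidAlgebra ℚ G) (MonoidAlgebra ℚ G ⧸ I) :=
      { carrier := {v | ∀ r : MonoidAlgebra ℚ G, nm ℚ J • r • v = 0}
        add_mem' := fun {u v} hu hv r => by rw [smul_add, smul_add, hu r, hv r, add_zero]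
        zero_mem' := fun r => by rw [smul_zero, smul_zero]
        smul_mem' := fun c v hv r => by rw [smul_smul r c]; exact hv (r * c) }
    obtain ⟨S, hS, v, hvS, hv⟩ : ∃ S : Submodule (MonoidAlgebra ℚ G) (MonoidAlgebra ℚ G ⧸ I),
        IsSimpleModule (MonoidAlgebra ℚ G) S ∧ ∃ v ∈ S, nm ℚ J • v ≠ 0 := by
      by_contra hc
      push Not at hc
      have h1 : sSup {S : Submodule (MonoidAlgebra ℚ G) (MonoidAlgebra ℚ G ⧸ I) |
          IsSimpleModule (MonoidAlgebra ℚ G) S} ≤ T :=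
        sSup_le fun S hS v hv r => hc S hS _ (S.smul_mem r hv)
      rw [IsSemisimpleModule.sSup_simples_eq_top] at h1
      have h2 : nm ℚ J • (1 : MonoidAlgebra ℚ G) •
          (Submodule.Quotient.mk 1 : MonoidAlgebra ℚ G ⧸ I) = 0 := h1 Submodule.mem_top 1
      rw [one_smul, ← Submodule.Quotient.mk_smul, smul_eq_mul, mul_one,
        Submodule.Quotient.mk_eq_zero] at h2
      exact hne h2
    have hw : (⟨nm ℚ J • v, S.smul_mem _ hvS⟩ : S) ≠ 0 := fun h0 => hv (congrArg Subtype.val h0)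
    obtain ⟨K, hK, u, hu, hfix⟩ := fixed_of_simple h𝒦 S hS _ hw fun k hk =>
      Subtype.ext (by
        rw [Submodule.coe_smul, smul_smul, nm_mul_single hk])
    refine hu ?_
    obtain ⟨b, hb⟩ := Submodule.Quotient.mk_surjective I u.1
    have h1 : nm ℚ K * b ∈ I := Submodule.subset_span ⟨K, hK, b, rfl⟩
    have h2 : (nm ℚ K) • u = 0 := by
      apply Subtype.ext
      rw [Submodule.coe_smul, ← hb, ← Submodule.Quotient.mk_smul, smul_eq_mul]
      exact (Submodule.Quotient.mk_eq_zero I).mpr h1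
    let _ := Fintype.ofFinite K
    rw [nm, Finset.sum_smul, Finset.sum_congr rfl (fun (k : K) _ => hfix k.1 k.2),
      Finset.sum_const, Finset.card_univ, ← Nat.cast_smul_eq_nsmul ℚ] at h2
    exact (smul_eq_zero.mp h2).resolve_left (Nat.cast_ne_zero.mpr Fintype.card_ne_zero)
  obtain ⟨m, hm, z, hz, F, hF, h1⟩ := hgood _ htop
  refine ⟨m, hm, F, hF, fun a => ?_⟩
  have hzm : z = m • nm ℤ J := by
    apply cc_injective
    rw [hz, map_nsmul, cc_nm]
    exact Nat.cast_smul_eq_nsmul ℚ m _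
  have h3 := h1 a
  rw [hzm, map_nsmul] at h3
  rw [← psi_nm]
  exact h3

end good

/-- A group with finite torsion subgroups is finitely generated if a multiple is contained in a
finitely generated subgroup. -/
theorem fg_of_multiple {A : Type} [AddCommGroup A]
    (ht : ∀ m : ℕ, 0 < m → {x : A | m • x = 0}.Finite)
    (h : ∃ m : ℕ, 0 < m ∧ ∃ F : AddSubgroup A, F.FG ∧ ∀ a : A, m • a ∈ F) : AddGroup.FG A := by
  obtain ⟨m, hm, F, hF, h1⟩ := h
  have hFfg : AddGroup.FG F := (AddGroup.fg_iff_addSubgroup_fg F).mpr hF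
  let T : AddSubgroup A := (nsmulAddMonoidHom m : A →+ A).ker
  have hT : Finite T := (ht m hm).to_subtype
  have hTfg : AddGroup.FG T := AddGroup.fg_of_finite
  let b : A →+ F :=
    { toFun := fun a => ⟨m • a, h1 a⟩
      map_zero' := Subtype.ext (smul_zero m)
      map_add' := fun x y => Subtype.ext (smul_add m x y) }
  refine Pool.Agent.K6.H18.Arith.fg_of_exact T.subtype b (fun a => ?_) hTfg hFfg
  constructor
  · intro h
    exact ⟨⟨a, congrArg Subtype.val h⟩, rfl⟩
  · rintro ⟨x, rfl⟩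
    exact Subtype.ext x.2

/-- The commutative case. -/
theorem fixedBelow_cyclic {G : Type} [CommGroup G] [Finite G] (J : Subgroup G) :
    FixedBelow J {K : Subgroup G | J ≤ K ∧ IsCyclic (G ⧸ K)} := by
  intro V _ _ ρ hirr hJ
  have hs := (Representation.irreducible_iff_isSimpleModule_asModule ρ).mp hirr
  obtain ⟨I, hI, ⟨e⟩⟩ := isSimpleModule_iff_quot_maximal.mp hs
  let _ : Field (MonoidAlgebra ℚ G ⧸ I) := Ideal.Quotient.field I
  let χ : G →* (MonoidAlgebra ℚ G ⧸ I) :=
    (Ideal.Quotient.mk I : MonoidAlgebra ℚ G →* _).comp (MonoidAlgebra.of ℚ G)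
  have hχ : ∀ (k : G) (x : MonoidAlgebra ℚ G ⧸ I),
      (MonoidAlgebra.single k (1 : ℚ)) • x = χ k * x := by
    intro k x
    rw [Algebra.smul_def]; rfl
  let K : Subgroup G := χ.toHomUnits.ker
  have hK : IsCyclic (G ⧸ K) := by
    refine isCyclic_of_injective_ringHom
      ((Units.coeHom (MonoidAlgebra ℚ G ⧸ I)).comp (QuotientGroup.kerLift χ.toHomUnits)) ?_
    exact Units.val_injective.comp (QuotientGroup.kerLift_injective _)
  have hJK : J ≤ K := by
    intro k hk
    obtain ⟨v, hv, hfix⟩ := hJ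
    have h3 := ρ.asModuleEquiv_map_smul (MonoidAlgebra.single k 1) (ρ.asModuleEquiv.symm v)
    rw [Representation.asAlgebraHom_single, one_smul, LinearEquiv.apply_symm_apply, hfix k hk] at h3
    have h4 : (MonoidAlgebra.single k (1 : ℚ)) • ρ.asModuleEquiv.symm v =
        ρ.asModuleEquiv.symm v := by
      rw [← LinearEquiv.symm_apply_apply ρ.asModuleEquiv
        ((MonoidAlgebra.single k (1 : ℚ)) • ρ.asModuleEquiv.symm v), h3]
    have h5 := congrArg e h4
    rw [map_smul, hχ] at h5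
    have h6 : e (ρ.asModuleEquiv.symm v) ≠ 0 := by
      intro h0
      apply hv
      have h7 : ρ.asModuleEquiv.symm v = 0 := (LinearEquiv.map_eq_zero_iff e).mp h0
      simpa using h7
    have h8 : χ k = 1 := mul_right_cancel₀ h6 (by rw [h5, one_mul])
    exact (Units.ext h8 : χ.toHomUnits k = 1)
  refine ⟨K, ⟨hJK, hK⟩, ρ.asModuleEquiv (e.symm 1), ?_, fun k hk => ?_⟩
  · intro h
    have h1 : e.symm 1 = 0 := by simpa using h
    exact one_ne_zero ((LinearEquiv.map_eq_zero_iff e.symm).mp h1)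
  · have h1 : χ k = 1 := congrArg Units.val (show χ.toHomUnits k = 1 from hk)
    have h2 : (MonoidAlgebra.single k (1 : ℚ)) • e.symm 1 = e.symm 1 := by
      rw [← map_smul, hχ, h1, one_mul]
    have h3 := ρ.asModuleEquiv_map_smul (MonoidAlgebra.single k 1) (e.symm 1)
    rw [h2, Representation.asAlgebraHom_single, one_smul] at h3
    exact h3.symm

end Pool.Agent.K6.H79.FC
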