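import Pool.Agent.K6.H79.FC.Defs
import Pool.Agent.K6.H79.FC.Basis
import Pool.Agent.K6.H99.EH.Final
import Pool.Agent.K6.H99.EH.FFMain

/-!
# Products of an abelian variety and an unrelated variety of dimension at most three
-/

set_option autoImplicit false
set_option linter.unusedSectionVars false

open CategoryTheory AlgebraicGeometry

noncomputable section

namespace Pool.Agent.K6.H79.FC

open Module Polynomial Pool.Agent.H914 Pool.Agent.H914.VarClass Pool.Agent.H914.VarClass.Obj
  Pool.Agent.W492.BB Pool.Agent.W495.FM Pool.Agent.K6.H99.FS Pool.Agent.K6.H99.EH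
  Pool.Agent.K6.H99.AC Pool.Agent.W484.HS Pool.Agent.Y1.CT
open Pool.Agent.W484.CK (isStandard_bridge isFrobenius_bridge isAbelian_bridge nilpotence_bridge
  IsStandard)

variable {Ω : Type} [Field Ω] [IsAlgClosed Ω] [CharZero Ω]

/-- The conjectures of Tate, Beilinson and Parshin for the products. -/
theorem tb_of_noRel {q : ℕ} (hq1 : 1 < q) {I : Type} {K : I → Type} [∀ i, Field (K i)]
    {f : I → ℤ[X]} (hR : NoRel f q (Independent K)) {V : Type} {E : Homology Ω V}
    (hE : IsHomology E) {X : V} (h : IsProduct E q K f X) : TB E X := by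
  obtain ⟨d, T, ι, A, Z, πA, πZ, hd, hS, hA, hZ, hF, hnil, hrep⟩ := h
  have _ : CharZero T.K := charZero_of_equiv ι
  have _ : IsAlgClosed T.K := IsAlgClosed.of_ringEquiv Ω T.K ι.symm
  obtain ⟨χ, hχ, hχn, hχi, hspan⟩ := hZ.weil
  obtain ⟨h, hh, hL⟩ := hZ.lefschetz
  have hQ1 : 1 < q ^ d := Nat.one_lt_pow hd.ne' hq1
  have hgood : ∀ y : T.H.A Z, y ∈ Submodule.span T.K (GoodVectors T.H (Independent K) (q ^ d) πZ) :=
    good_of_threefold hQ1 (isStandard_bridge hS) (isFrobenius_bridge hZ.frobenius) hZ.dim hχ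
      (fun j ρ hρ => hχn j ρ hρ) hχi (fun j y hy => hspan j y hy)
      (fun y hy hyq => Pool.Agent.W484.CH.mem_NK_one (hZ.tate y hy hyq)) h hh
      (fun m _ h2m a ha h0 => (hL (2 * m) h2m.le).1 a ha h0)
      (fun m _ h2m b hb => by
        have h1 : 2 * (Obj.dim Z - m) = 2 * Obj.dim Z - 2 * m := by omega
        rw [h1] at hb
        exact (hL (2 * m) h2m.le).2 b hb)
  obtain ⟨r, b, β, hb1, hb2, hb3⟩ := exists_basis_times hq1 hR (isStandard_bridge hS) hd
    (isAbelian_bridge hA) hgood
  exact tb_of_basis hS (isFrobenius_bridge hF) hQ1 (nilpotence_bridge hnil) b β hb1 hb2 hb3 ι hE hd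
    hrep

/-- The Tate conjecture for the function fields of the varieties in the class. -/
theorem tate_functionFields {q : ℕ} (hq1 : 1 < q) {I : Type} {K : I → Type} [∀ i, Field (K i)]
    {f : I → ℤ[X]} (hR : NoRel f q (Independent K)) {V : Type} {E : Homology Ω V}
    (hE : IsHomology E) (hW : HasWeights E) {X : V}
    (hX : Spread E (Generated E (IsProduct E q K f)) X) (P : FF.Opens E X) :
    FF.TateFunctionField P :=
  FF.tate_functionField hE hW P fun a i => (class_of_tb hE hW fun _ h => tb_of_noRel hq1 hR hE h).1 _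
    (Spread.opened _ X _ (P.triple a) hX) i

end Pool.Agent.K6.H79.FC
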